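import Pool.Agent.Q115.AG.Low
import Pool.Agent.H942R2.LL.HIGHN
set_option autoImplicit false

/-!
Characters of the unitary representations of `A_n` without vectors fixed by the pointwise
stabilisers of few points.
-/

namespace Pool.Agent.Q115.AG

open RC14 Finset
open scoped InnerProductSpace

noncomputable section

variable {n : ℕ}

section
variable {G : Type*} [Group G] {V : Type*} [NormedAddCommGroup V] [InnerProductSpace ℂ V]

lemma inv_orth (ρ : G →* (V ≃ₗᵢ[ℂ] V)) {W : Submodule ℂ V} (hW : Inv ρ W) : Inv ρ Wᗮ := by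
  intro g v hv
  rw [Submodule.mem_orthogonal] at hv ⊢
  intro u hu
  have h1 := hv (ρ g⁻¹ u) (hW _ u hu)
  rw [FR.inner_rho, inv_inv] at h1
  exact h1

variable [FiniteDimensional ℂ V]

lemma rchr_eq (ρ : G →* (V ≃ₗᵢ[ℂ] V)) (W : Submodule ℂ V) (hW : Inv ρ W) (g : G) :
    rchr ρ W hW g =
      LinearMap.trace ℂ V (op ρ g * (W.starProjection : V →ₗ[ℂ] V)) := by
  have hP : ∀ v, (op ρ g * (W.starProjection : V →ₗ[ℂ] V)) v ∈ W := fun v =>
    hW g _ (Submodule.starProjection_apply_mem W v)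
  have h1 := LinearMap.trace_restrict_eq_of_forall_mem W
    (op ρ g * (W.starProjection : V →ₗ[ℂ] V)) hP
  rw [← h1]
  unfold rchr chr
  congr 1
  ext w
  change ((res ρ W hW g w : W) : V) = ρ g (W.starProjection (w : V))
  rw [res_apply, Submodule.starProjection_eq_self_iff.2 w.2]

lemma chr_add (ρ : G →* (V ≃ₗᵢ[ℂ] V)) (W : Submodule ℂ V) (hW : Inv ρ W) (g : G) :
    chr ρ g = rchr ρ W hW g + rchr ρ Wᗮ (inv_orth ρ hW) g := by
  rw [rchr_eq, rchr_eq, ← map_add, ← mul_add]
  unfold chr
  congr 1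
  have : (W.starProjection : V →ₗ[ℂ] V) + (Wᗮ.starProjection : V →ₗ[ℂ] V) = 1 := by
    ext v
    simp
  rw [this, mul_one]

end

/-- no vectors fixed by the stabilisers of `K` with `N |K| ≤ n` -/
def NoFix {V : Type*} [NormedAddCommGroup V] [InnerProductSpace ℂ V] (ρ : Alt n →* (V ≃ₗᵢ[ℂ] V))
    (N : ℕ) : Prop :=
  ∀ K : Finset (Fin n), N * K.card ≤ n → ∀ v : V, Fx ρ K v → v = 0

lemma noFix_res {V : Type*} [NormedAddCommGroup V] [InnerProductSpace ℂ V]
    {ρ : Alt n →* (V ≃ₗᵢ[ℂ] V)} {N : ℕ} (h : NoFix ρ N) {W : Submodule ℂ V} (hW : Inv ρ W) :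
    NoFix (res ρ W hW) N := by
  intro K hK v hv
  have := h K hK v (fun g hg => by
    have := hv g hg
    rw [← res_apply ρ W hW g v, this])
  exact Subtype.ext this

/-- **character bound** -/
theorem high_chr.{u} (N : ℕ) (hN : 100 ≤ N) (hn : 1000 ≤ n) (g : Alt n)
    (hg : 2 * nfix (g : Equiv.Perm (Fin n)) ≤ n) (m : ℕ) (hm : 36 * m ≤ n) (B : ℝ) (hB0 : 0 ≤ B)
    (hB : Real.exp (72 * (m : ℝ) ^ 2 / n) * (1 - 1 / (84 * (N : ℝ))) ^ m ≤ B ^ 2) (d : ℕ) :
    ∀ (V : Type u) [NormedAddCommGroup V] [InnerProductSpace ℂ V] [FiniteDimensional ℂ V]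
      (ρ : Alt n →* (V ≃ₗᵢ[ℂ] V)), Module.finrank ℂ V = d → NoFix ρ N →
      ‖chr ρ g‖ ≤ B * Module.finrank ℂ V := by
  induction d using Nat.strong_induction_on with
  | _ d ih =>
    intro V _ _ _ ρ hd hno
    by_cases h0 : (⊤ : Submodule ℂ V) = ⊥
    · have hs : Subsingleton V := by
        rw [← Submodule.subsingleton_iff ℂ]
        exact subsingleton_of_bot_eq_top h0.symm
      have h1 : chr ρ g = 0 := by
        unfold chr
        have : op ρ g = 0 := by
          ext v
          exact Subsingleton.elim _ _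
        rw [this, map_zero]
      rw [h1, norm_zero]
      positivity
    · obtain ⟨W, hW, -⟩ := DECOMP.exists_irr ρ ⊤ (fun _ _ _ => trivial) h0
      by_cases hWt : W = ⊤
      · subst hWt
        have h1 := LL14.HIGHN N hN n hn ρ hW hno g hg m hm
        have h2 : ‖chr ρ g‖ ^ 2 ≤ (B * Module.finrank ℂ V) ^ 2 := by
          rw [mul_pow]
          exact h1.trans (mul_le_mul_of_nonneg_right hB (by positivity))
        exact (sq_le_sq₀ (norm_nonneg _) (by positivity)).1 h2
      · have hlt : Module.finrank ℂ W < d := by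
          rw [← hd]
          exact Submodule.finrank_lt hWt
        have hpos : 0 < Module.finrank ℂ W := hW.finrank_pos
        have hadd : Module.finrank ℂ W + Module.finrank ℂ Wᗮ = d := by
          rw [← hd]
          exact Submodule.finrank_add_finrank_orthogonal W
        rw [chr_add ρ W hW.2.1 g]
        refine (norm_add_le _ _).trans ?_
        have h1 := ih _ hlt W (res ρ W hW.2.1) rfl (noFix_res hno hW.2.1)
        have h2 := ih _ (by omega) (Wᗮ : Submodule ℂ V) (res ρ Wᗮ (inv_orth ρ hW.2.1)) rfl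
          (noFix_res hno _)
        have h3 : (Module.finrank ℂ V : ℝ) = Module.finrank ℂ W + Module.finrank ℂ Wᗮ := by
          rw [hd, ← hadd]
          push_cast
          rfl
        rw [h3, mul_add]
        exact add_le_add h1 h2

end

end Pool.Agent.Q115.AG
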