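import Pool.Agent.H20R2.RC.FRLOW
import Pool.Agent.H14R2.RC.R1
set_option autoImplicit false

/-!
Vectors of a unitary representation of `A_n` fixed by the pointwise stabilisers of few points: the
spectral gap for the functions of low level gives the spectral gap on their span.
-/

namespace Pool.Agent.Q115.AG

open RC14 Finset
open scoped InnerProductSpace

noncomputable section

variable {n : ℕ} {V : Type*} [NormedAddCommGroup V] [InnerProductSpace ℂ V]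

/-- `v` is fixed by the pointwise stabiliser of `K` -/
def Fx (ρ : Alt n →* (V ≃ₗᵢ[ℂ] V)) (K : Finset (Fin n)) (v : V) : Prop :=
  ∀ h : Alt n, (∀ a ∈ K, (h : Equiv.Perm (Fin n)) a = a) → ρ h v = v

/-- the span of the vectors fixed by stabilisers of at most `r` points -/
def Low (ρ : Alt n →* (V ≃ₗᵢ[ℂ] V)) (r : ℕ) : Submodule ℂ V :=
  Submodule.span ℂ {v | ∃ K : Finset (Fin n), K.card ≤ r ∧ Fx ρ K v}

lemma Fx_move (ρ : Alt n →* (V ≃ₗᵢ[ℂ] V)) (K : Finset (Fin n)) (v : V) (g : Alt n)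
    (hv : Fx ρ K v) : Fx ρ (K.map (g : Equiv.Perm (Fin n)).toEmbedding) (ρ g v) := by
  intro h hh
  have h1 : ρ (g⁻¹ * h * g) v = v := hv _ (by
    intro a ha
    have := hh ((g : Equiv.Perm (Fin n)) a) (Finset.mem_map_of_mem _ ha)
    simp [this])
  have h2 : ρ g (ρ (g⁻¹ * h * g) v) = ρ h (ρ g v) := by
    have e : g * (g⁻¹ * h * g) = h * g := by group
    have e1 : ρ (g * (g⁻¹ * h * g)) v = ρ (h * g) v := by rw [e]
    rw [map_mul, map_mul ρ h g] at e1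
    exact e1
  rw [← h2, h1]

lemma Low_inv (ρ : Alt n →* (V ≃ₗᵢ[ℂ] V)) (r : ℕ) : Inv ρ (Low ρ r) := by
  intro g v hv
  refine Submodule.span_induction (p := fun v _ => ρ g v ∈ Low ρ r) ?_ ?_ ?_ ?_ hv
  · rintro v ⟨K, hK, h⟩
    exact Submodule.subset_span ⟨K.map (g : Equiv.Perm (Fin n)).toEmbedding,
      by rw [Finset.card_map]; exact hK, Fx_move ρ K v g h⟩
  · simp
  · intro a b _ _ ha hb
    rw [map_add]; exact Submodule.add_mem _ ha hb
  · intro c a _ ha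
    rw [map_smul]; exact Submodule.smul_mem _ _ ha

/-- the coefficient function `h ↦ ⟨u, ρ(h) w⟩` -/
def co (ρ : Alt n →* (V ≃ₗᵢ[ℂ] V)) (u w : V) : FA n := WithLp.toLp 2 fun h => ⟪u, ρ h w⟫_ℂ

lemma co_apply (ρ : Alt n →* (V ≃ₗᵢ[ℂ] V)) (u w : V) (h : Alt n) :
    co ρ u w h = ⟪u, ρ h w⟫_ℂ := rfl

lemma RR_co (ρ : Alt n →* (V ≃ₗᵢ[ℂ] V)) (u w : V) (g : Alt n) :
    RR n g (co ρ u w) = co ρ u (ρ g w) := by
  ext h
  rw [RR_apply, co_apply, co_apply, map_mul]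
  rfl

lemma co_sub (ρ : Alt n →* (V ≃ₗᵢ[ℂ] V)) (u w w' : V) :
    co ρ u w - co ρ u w' = co ρ u (w - w') := by
  ext h
  rw [PiLp.sub_apply, co_apply, co_apply, co_apply, map_sub, inner_sub_right]

lemma co_low (ρ : Alt n →* (V ≃ₗᵢ[ℂ] V)) {r : ℕ} {u : V} (hu : u ∈ Low ρ r) (w : V) :
    co ρ u w ∈ FRLOW.lowC n r := by
  refine Submodule.span_induction (p := fun u _ => co ρ u w ∈ FRLOW.lowC n r) ?_ ?_ ?_ ?_ hu
  · rintro v ⟨K, hK, h⟩
    refine Submodule.subset_span ⟨K, hK, fun s g hs => ?_⟩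
    rw [co_apply, co_apply, map_mul]
    have h1 : ρ s⁻¹ v = v := h _ (by
      intro a ha
      have := hs a ha
      have h2 : ((s⁻¹ : Alt n) : Equiv.Perm (Fin n)) a = a := by
        rw [InvMemClass.coe_inv, Equiv.Perm.inv_eq_iff_eq]
        exact this.symm
      exact h2)
    have h3 : ⟪ρ s⁻¹ v, ρ g w⟫_ℂ = ⟪v, ρ s (ρ g w)⟫_ℂ := by
      rw [FR.inner_rho, inv_inv]
    rw [h1] at h3
    exact h3.symm
  · have : co ρ 0 w = 0 := by
      ext h
      rw [co_apply, inner_zero_left]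
      rfl
    rw [this]
    exact Submodule.zero_mem _
  · intro a b _ _ ha hb
    have : co ρ (a + b) w = co ρ a w + co ρ b w := by
      ext h
      rw [PiLp.add_apply, co_apply, co_apply, co_apply, inner_add_left]
    rw [this]
    exact Submodule.add_mem _ ha hb
  · intro c a _ ha
    have : co ρ (c • a) w = (starRingEnd ℂ c) • co ρ a w := by
      ext h
      rw [PiLp.smul_apply, co_apply, co_apply, inner_smul_left, smul_eq_mul]
    rw [this]
    exact Submodule.smul_mem _ _ ha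

lemma co_sum (ρ : Alt n →* (V ≃ₗᵢ[ℂ] V)) (hno : ∀ v : V, (∀ g, ρ g v = v) → v = 0) (u w : V) :
    ∑ g, co ρ u w g = 0 := by
  have h1 : ∑ g, ρ g w = 0 := by
    refine hno _ fun s => ?_
    rw [map_sum]
    refine (Fintype.sum_equiv (Equiv.mulLeft s) _ _ fun g => ?_)
    simp only [Equiv.coe_mulLeft, map_mul]
    rfl
  simp only [co_apply]
  rw [← inner_sum, h1, inner_zero_right]

/-- the gap for the functions of low level -/
lemma fa_low {k r : ℕ} {c : ℝ} {x : Fin k → Alt n} (hx : Good1 n r c x) {F : FA n}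
    (hF : F ∈ FRLOW.lowC n r) (hs : ∑ g, F g = 0) : c * ‖F‖ ^ 2 ≤ En (RR n) x F := by
  refine FR n r k x c (FRLOW.lowC n r ⊓ FRLOW.MZ n) ?_ ?_ hx ?_ F ⟨hF, hs⟩
  · intro s F hF
    exact ⟨FRLOW.lowC_inv r s F hF.1, FRLOW.MZ_inv s F hF.2⟩
  · intro F hF
    exact hF.2
  · intro F hF hH
    have : ⟪F, F⟫_ℂ = 0 := FRLOW.lowC_orth hH hF.1
    have hF0 : F = 0 := inner_self_eq_zero.mp this
    subst hF0
    simp [En]

/-- **the gap on `Low`** -/
theorem low_gap [FiniteDimensional ℂ V] (ρ : Alt n →* (V ≃ₗᵢ[ℂ] V))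
    (hno : ∀ v : V, (∀ g, ρ g v = v) → v = 0) {k r : ℕ} {c : ℝ} {x : Fin k → Alt n}
    (hx : Good1 n r c x) {w : V} (hw : w ∈ Low ρ r) : c * ‖w‖ ^ 2 ≤ En ρ x w := by
  classical
  set e := stdOrthonormalBasis ℂ (Low ρ r) with he
  have p1 : ∀ w' ∈ Low ρ r, ∑ i, ‖⟪(e i : V), w'⟫_ℂ‖ ^ 2 = ‖w'‖ ^ 2 := by
    intro w' hw'
    exact e.sum_sq_norm_inner_right ⟨w', hw'⟩
  have p2 : ∀ w' ∈ Low ρ r, ∑ i, ‖co ρ (e i : V) w'‖ ^ 2 = Fintype.card (Alt n) * ‖w'‖ ^ 2 := by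
    intro w' hw'
    simp only [EuclideanSpace.norm_sq_eq]
    rw [Finset.sum_comm]
    have : ∀ h : Alt n, ∑ i, ‖co ρ (e i : V) w' h‖ ^ 2 = ‖w'‖ ^ 2 := by
      intro h
      rw [← (ρ h).norm_map w', ← p1 _ (Low_inv ρ r h w' hw')]
      rfl
    rw [Finset.sum_congr rfl fun h _ => this h, Finset.sum_const, Finset.card_univ, nsmul_eq_mul]
  have p3 : ∑ i, En (RR n) x (co ρ (e i : V) w) = Fintype.card (Alt n) * En ρ x w := by
    unfold En
    rw [Finset.sum_comm, Finset.mul_sum]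
    refine Finset.sum_congr rfl fun t _ => ?_
    simp only [RR_co, co_sub]
    exact p2 _ (Submodule.sub_mem _ (Low_inv ρ r _ w hw) hw)
  have hG : (0 : ℝ) < Fintype.card (Alt n) := by exact_mod_cast Fintype.card_pos
  have p4 : c * (Fintype.card (Alt n) * ‖w‖ ^ 2) ≤ Fintype.card (Alt n) * En ρ x w := by
    rw [← p2 w hw, ← p3, Finset.mul_sum]
    exact Finset.sum_le_sum fun i _ => fa_low hx (co_low ρ (e i).2 w) (co_sum ρ hno _ w)
  have p5 : Fintype.card (Alt n) * (c * ‖w‖ ^ 2) ≤ Fintype.card (Alt n) * En ρ x w := by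
    linarith
  exact le_of_mul_le_mul_left p5 hG

end

end Pool.Agent.Q115.AG
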