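import Pool.Agent.Q115.AG.Tr
import Pool.Agent.H14R2.RC.Asy
import Pool.Agent.H852R2.TE.Defs
set_option autoImplicit false

/-!
The choice of the parameters.
-/

namespace Pool.Agent.Q115.AG

open RC14 Finset Filter Topology
open scoped InnerProductSpace

noncomputable section

/-- in every unitary representation of `A_n` without nonzero invariant vectors, all but a
proportion `exp (-n^(1-δ))` of the eigenvalues of the average of the generators (counted by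
dimension, in the sense of Courant and Fischer) are below `1 - ε` -/
def AlmostGap (n : ℕ) (δ ε : ℝ) {k : ℕ} (x : Fin k → alternatingGroup (Fin n)) : Prop :=
  ∀ (V : Type) [NormedAddCommGroup V] [InnerProductSpace ℂ V] [FiniteDimensional ℂ V]
    (ρ : alternatingGroup (Fin n) →* (V ≃ₗᵢ[ℂ] V)), (∀ v : V, (∀ g, ρ g v = v) → v = 0) →
    ∀ U : Submodule ℂ V,
      (∀ v ∈ U, (1 - ε) * ‖v‖ ^ 2 ≤ (∑ i, (⟪ρ (x i) v, v⟫_ℂ).re) / k) →
      (Module.finrank ℂ U : ℝ) ≤ Real.exp (-(n : ℝ) ^ (1 - δ)) * Module.finrank ℂ V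

lemma pow_low (ε : ℝ) (h0 : 0 ≤ ε) (h1 : ε ≤ 1) (L : ℕ) :
    Real.exp (-(ε * L)) ≤ (1 - ε / 2) ^ L := by
  have e1 : Real.exp (-ε) ≤ 1 - ε / 2 := by
    rw [Real.exp_neg, inv_le_comm₀ (Real.exp_pos _) (by linarith)]
    have e2 : ε + 1 ≤ Real.exp ε := Real.add_one_le_exp _
    refine le_trans ?_ e2
    rw [inv_le_iff_one_le_mul₀ (by linarith)]
    nlinarith
  calc Real.exp (-(ε * L)) = Real.exp (-ε) ^ L := by
        rw [← Real.exp_nat_mul]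
        congr 1
        ring
    _ ≤ (1 - ε / 2) ^ L := pow_le_pow_left₀ (Real.exp_pos _).le e1 L

lemma three_pow (m : ℕ) (t : ℝ) (ht : 3 * (m : ℝ) ≤ t) :
    (3 : ℝ) ^ m * Real.exp (-t) ≤ Real.exp (-(m : ℝ)) := by
  have e1 : (3 : ℝ) ≤ Real.exp 2 := by
    have := Real.add_one_le_exp (2 : ℝ)
    linarith
  calc (3 : ℝ) ^ m * Real.exp (-t) ≤ Real.exp 2 ^ m * Real.exp (-t) := by
        gcongr
    _ = Real.exp (2 * m - t) := by
        rw [← Real.exp_nat_mul, ← Real.exp_add]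
        congr 1
        ring
    _ ≤ Real.exp (-(m : ℝ)) := Real.exp_le_exp.2 (by linarith)

lemma three_div (m n : ℕ) (hn : 1000 ≤ n) : (3 / (n : ℝ)) ^ m ≤ Real.exp (-(m : ℝ)) := by
  have hn0 : (1000 : ℝ) ≤ n := by exact_mod_cast hn
  have e1 : 3 / (n : ℝ) ≤ Real.exp (-1) := by
    rw [Real.exp_neg, div_le_iff₀ (by linarith)]
    have e2 := Real.exp_one_lt_d9
    have e3 : (1 : ℝ) / 3 ≤ (Real.exp 1)⁻¹ := by
      rw [← one_div]
      exact one_div_le_one_div_of_le (Real.exp_pos _) (by linarith)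
    nlinarith
  calc (3 / (n : ℝ)) ^ m ≤ Real.exp (-1) ^ m := pow_le_pow_left₀ (by positivity) e1 m
    _ = Real.exp (-(m : ℝ)) := by
        rw [← Real.exp_nat_mul]
        congr 1
        ring

/-- the constant -/
def cc : ℝ := 1 / (8 * 336 * 12096)

lemma cc_pos : 0 < cc := by unfold cc; norm_num

lemma cc_le : cc ≤ 1 := by unfold cc; norm_num

lemma T_le (n N m : ℕ) (hn : 1000 ≤ n) (S D t : ℝ) (hS0 : 0 ≤ S)
    (hSD : S * (D * D) = n) (hN : (N : ℝ) ≤ 2 * D) (hN0 : (0 : ℝ) < N) (hSm : S < (m : ℝ) + 1)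
    (ht : 3 * (m : ℝ) ≤ t) :
    Real.exp (-(1 / (2 * 336 * 12096 * (N : ℝ) ^ 2) * n)) +
      ((3 / (n : ℝ)) ^ m + 3 ^ m * Real.exp (-t)) ≤ Real.exp 6 * Real.exp (-(cc * S)) := by
  have hB : Real.exp (-(1 / (2 * 336 * 12096 * (N : ℝ) ^ 2) * n)) ≤ Real.exp (-(cc * S)) := by
    apply Real.exp_le_exp.2
    have e1 : cc * S ≤ 1 / (2 * 336 * 12096 * (N : ℝ) ^ 2) * n := by
      rw [one_div_mul_eq_div, le_div_iff₀ (by positivity)]
      have e2 : (N : ℝ) ^ 2 ≤ 4 * (D * D) := by nlinarith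
      have e3 : S * (N : ℝ) ^ 2 ≤ 4 * n := by
        have e5 : S * (N : ℝ) ^ 2 ≤ S * (4 * (D * D)) := mul_le_mul_of_nonneg_left e2 hS0
        linarith
      have e4 : cc * S * (2 * 336 * 12096 * (N : ℝ) ^ 2) = (S * (N : ℝ) ^ 2) / 4 := by
        unfold cc; ring
      rw [e4]
      linarith
    linarith
  have hem : Real.exp (-(m : ℝ)) ≤ Real.exp 1 * Real.exp (-(cc * S)) := by
    rw [← Real.exp_add]
    apply Real.exp_le_exp.2
    have e1 : cc * S ≤ 1 * S := mul_le_mul_of_nonneg_right cc_le hS0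
    linarith
  have e1 := three_div m n hn
  have e2 := three_pow m _ ht
  have e3 := Real.exp_one_lt_d9
  have e4 : (6 : ℝ) + 1 ≤ Real.exp 6 := Real.add_one_le_exp _
  have e5 : 0 < Real.exp (-(cc * S)) := Real.exp_pos _
  have e6 : Real.exp 1 * Real.exp (-(cc * S)) ≤ 3 * Real.exp (-(cc * S)) :=
    mul_le_mul_of_nonneg_right (by linarith) e5.le
  have e7 : 7 * Real.exp (-(cc * S)) ≤ Real.exp 6 * Real.exp (-(cc * S)) :=
    mul_le_mul_of_nonneg_right (by linarith) e5.le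
  linarith

lemma fin_le (u v a ε T S A q : ℝ) (L : ℕ) (hv : 0 ≤ v) (hu : 0 ≤ u)
    (key : u * (1 - ε / 2) ^ L ≤ T * v) (hT : T ≤ Real.exp 6 * Real.exp (-(cc * S)))
    (hε0 : 0 ≤ ε) (hε1 : ε ≤ 1) (hεA : ε * A = cc / 2) (hLA : (L : ℝ) ≤ A * S)
    (ha : a ≤ cc * S / 4) (h6 : 6 ≤ cc * S / 4) (hq : q = a) : u ≤ Real.exp (-q) * v := by
  subst hq
  have hlow : Real.exp (-(cc * S / 2)) ≤ (1 - ε / 2) ^ L := by
    refine le_trans (Real.exp_le_exp.2 ?_) (pow_low ε hε0 hε1 L)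
    have e1 : ε * L ≤ ε * (A * S) := mul_le_mul_of_nonneg_left hLA hε0
    have e2 : ε * (A * S) = cc * S / 2 := by
      rw [← mul_assoc, hεA]; ring
    linarith
  have hfin : u * Real.exp (-(cc * S / 2)) ≤ Real.exp 6 * Real.exp (-(cc * S)) * v := by
    refine (mul_le_mul_of_nonneg_left hlow hu).trans (key.trans ?_)
    exact mul_le_mul_of_nonneg_right hT hv
  have h6' : Real.exp 6 * Real.exp (-(cc * S)) =
      Real.exp (6 - cc * S / 2) * Real.exp (-(cc * S / 2)) := by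
    rw [← Real.exp_add, ← Real.exp_add]
    congr 1
    ring
  rw [h6'] at hfin
  have h7 : u ≤ Real.exp (6 - cc * S / 2) * v := by
    have h8 : u * Real.exp (-(cc * S / 2)) ≤
        (Real.exp (6 - cc * S / 2) * v) * Real.exp (-(cc * S / 2)) := by
      linarith
    exact le_of_mul_le_mul_right h8 (Real.exp_pos _)
  refine h7.trans (mul_le_mul_of_nonneg_right (Real.exp_le_exp.2 ?_) hv)
  linarith

/-- the choice of `N` and `m` -/
lemma choice (δ : ℝ) (hδ : 0 < δ) (n r : ℕ) (hn : 1000 ≤ n)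
    (hr : r = ⌊(n : ℝ) ^ (1 - δ / 4)⌋₊)
    (h1 : 100 ≤ (n : ℝ) ^ (δ / 4)) (h2 : 2 * 12096 * 2 * (n : ℝ) ^ (δ / 4) ≤ n)
    (h3 : 6 * (n : ℝ) ^ (1 - δ / 2) ≤ n) :
    ∃ N m : ℕ, 100 ≤ N ∧ 2 * (12096 * N) ≤ n ∧ n < N * (r + 1) ∧ 6 * m ≤ n ∧ m ≤ r ∧
      (N : ℝ) ≤ 2 * (n : ℝ) ^ (δ / 4) ∧ (m : ℝ) ≤ (n : ℝ) ^ (1 - δ / 2) ∧
      (n : ℝ) ^ (1 - δ / 2) < (m : ℝ) + 1 := by
  have hnr : (1000 : ℝ) ≤ n := by exact_mod_cast hn
  have hn0 : (0 : ℝ) < n := by linarith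
  obtain ⟨D, hD⟩ : ∃ D : ℝ, D = (n : ℝ) ^ (δ / 4) := ⟨_, rfl⟩
  obtain ⟨R, hR⟩ : ∃ R : ℝ, R = (n : ℝ) ^ (1 - δ / 4) := ⟨_, rfl⟩
  obtain ⟨S, hS⟩ : ∃ S : ℝ, S = (n : ℝ) ^ (1 - δ / 2) := ⟨_, rfl⟩
  have hD0 : 0 < D := by rw [hD]; exact Real.rpow_pos_of_pos hn0 _
  have hR0 : 0 < R := by rw [hR]; exact Real.rpow_pos_of_pos hn0 _
  have hS0 : 0 < S := by rw [hS]; exact Real.rpow_pos_of_pos hn0 _
  have hSR : S ≤ R := by
    rw [hS, hR]
    exact Real.rpow_le_rpow_of_exponent_le (by linarith) (by linarith)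
  have hRD : R * D = n := by
    rw [hR, hD, ← Real.rpow_add hn0, sub_add_cancel, Real.rpow_one]
  rw [← hD] at h1 h2 ⊢
  rw [← hS] at h3 ⊢
  rw [← hR] at hr
  have hrR : R < (r : ℝ) + 1 := by rw [hr]; exact Nat.lt_floor_add_one _
  refine ⟨n / (r + 1) + 100, ⌊S⌋₊, Nat.le_add_left _ _, ?_, ?_, ?_, ?_, ?_,
    Nat.floor_le hS0.le, Nat.lt_floor_add_one _⟩
  · have e1 : ((n / (r + 1) : ℕ) : ℝ) ≤ D := by
      have e2 : ((n / (r + 1) : ℕ) : ℝ) ≤ (n : ℝ) / ((r + 1 : ℕ) : ℝ) := Nat.cast_div_le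
      refine e2.trans ?_
      rw [div_le_iff₀ (by positivity)]
      push_cast
      nlinarith
    have : 2 * (12096 * (((n / (r + 1) : ℕ) : ℝ) + 100)) ≤ n := by linarith
    exact_mod_cast this
  · have e1 := Nat.div_add_mod n (r + 1)
    have e2 := Nat.mod_lt n (show r + 1 > 0 by omega)
    have e3 : (n / (r + 1) + 100) * (r + 1) = (r + 1) * (n / (r + 1)) + 100 * (r + 1) := by ring
    rw [e3]
    omega
  · have e1 : (⌊S⌋₊ : ℝ) ≤ S := Nat.floor_le hS0.le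
    have : 6 * (⌊S⌋₊ : ℝ) ≤ n := by linarith
    exact_mod_cast this
  · rw [hr]
    exact Nat.floor_le_floor hSR
  · have e1 : ((n / (r + 1) : ℕ) : ℝ) ≤ D := by
      have e2 : ((n / (r + 1) : ℕ) : ℝ) ≤ (n : ℝ) / ((r + 1 : ℕ) : ℝ) := Nat.cast_div_le
      refine e2.trans ?_
      rw [div_le_iff₀ (by positivity)]
      push_cast
      nlinarith
    push_cast
    linarith

theorem par (δ : ℝ) (hδ : 0 < δ) (hδ1 : δ ≤ 1 / 2) (k : ℕ) (hk : 1 ≤ k) (c : ℝ) (hc : 0 < c) :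
    ∃ ε : ℝ, 0 < ε ∧ ∀ᶠ n : ℕ in atTop, ∀ x : Fin k → Alt n,
      Good1 n (TE852.Rr (1 - δ / 4) n) c x → AlmostGap n δ ε x := by
  have hk0 : (0 : ℝ) < k := by exact_mod_cast hk
  have hcc : 0 < cc := cc_pos
  have hcc1 : cc ≤ 1 := cc_le
  obtain ⟨A, hA⟩ : ∃ A : ℝ, A = 12 * k / c + 1 := ⟨_, rfl⟩
  have hA1 : 1 ≤ A := by
    have : 0 ≤ 12 * (k : ℝ) / c := by positivity
    linarith
  obtain ⟨ε, hε⟩ : ∃ ε : ℝ, ε = cc / (2 * A) := ⟨_, rfl⟩
  have hε0 : 0 < ε := by rw [hε]; positivity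
  have hεA : ε * A = cc / 2 := by
    rw [hε]; field_simp
  have hε1 : ε ≤ 1 := by
    rw [hε, div_le_one (by positivity)]; linarith
  have hεc : 2 * k * ε < c := by
    have h1 : ε * (12 * k / c) ≤ cc / 2 := by
      have : 12 * (k : ℝ) / c ≤ A := by linarith
      calc ε * (12 * k / c) ≤ ε * A := by gcongr
        _ = cc / 2 := hεA
    have h2 : ε * (12 * k / c) = 12 * k * ε / c := by ring
    rw [h2, div_le_iff₀ hc] at h1
    nlinarith
  refine ⟨ε, hε0, ?_⟩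
  filter_upwards [eventually_ge_atTop 1000, ev_const (δ / 4) 100 (by linarith),
    ev_le (δ / 4) 1 (2 * 12096 * 2) (by linarith), ev_le (1 - δ / 2) 1 6 (by linarith),
    ev_le (1 - δ) (1 - δ / 2) (4 / cc) (by linarith),
    ev_const (1 - δ / 2) (24 / cc) (by linarith)] with n hn h1 h2 h3 h4 h5
  intro x hx V _ _ _ ρ hinv U hU
  rw [Real.rpow_one] at h2 h3
  obtain ⟨N, m, a1, a2, a3, a4, a5, a6, a7, a8⟩ := choice δ hδ n _ hn rfl h1 h2 h3
  have hnr : (1000 : ℝ) ≤ n := by exact_mod_cast hn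
  have hn0 : (0 : ℝ) < n := lt_of_lt_of_le (by norm_num) hnr
  have hn1 : (1 : ℝ) ≤ n := le_trans (by norm_num) hnr
  have hN0 : (0 : ℝ) < N := by
    have : 0 < N := by omega
    exact_mod_cast this
  have hSD : (n : ℝ) ^ (1 - δ / 2) * ((n : ℝ) ^ (δ / 4) * (n : ℝ) ^ (δ / 4)) = n := by
    rw [← Real.rpow_add hn0, ← Real.rpow_add hn0]
    have : 1 - δ / 2 + (δ / 4 + δ / 4) = 1 := by ring
    rw [this, Real.rpow_one]
  have hS1 : 1 ≤ (n : ℝ) ^ (1 - δ / 2) := Real.one_le_rpow hn1 (by linarith)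
  generalize (n : ℝ) ^ (1 - δ / 2) = S at *
  generalize (n : ℝ) ^ (δ / 4) = D at *
  have hL1 : 12 * k / c * m ≤ (⌈12 * k / c * m⌉₊ : ℝ) := Nat.le_ceil _
  have hL2 : (⌈12 * k / c * m⌉₊ : ℝ) < 12 * k / c * m + 1 :=
    Nat.ceil_lt_add_one (by positivity)
  generalize ⌈12 * k / c * m⌉₊ = L at *
  have hLA : (L : ℝ) ≤ A * S := by
    have e1 : 12 * (k : ℝ) / c * m ≤ 12 * k / c * S := by gcongr
    have e2 : A * S = 12 * k / c * S + S := by rw [hA]; ring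
    linarith
  have hcL : 3 * (m : ℝ) ≤ c * L / (4 * k) := by
    rw [le_div_iff₀ (by positivity)]
    have e1 : c * (12 * k / c * m) ≤ c * L := by gcongr
    have e2 : c * (12 * k / c * m) = 12 * k * m := by field_simp
    linarith
  have key := core n N m k (TE852.Rr (1 - δ / 4) n) a1 hn a2 a3 hk a4 a5 x c hc hx ρ hinv ε hε0
    hε1 hεc U hU L
  have h4' : (n : ℝ) ^ (1 - δ) ≤ cc * S / 4 := by
    have : 4 / cc * (n : ℝ) ^ (1 - δ) = (4 * (n : ℝ) ^ (1 - δ)) / cc := by ring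
    rw [this, div_le_iff₀ hcc] at h4
    linarith
  have h5' : 6 ≤ cc * S / 4 := by
    rw [div_le_iff₀ hcc] at h5
    linarith
  exact fin_le _ _ _ ε _ S A _ L (Nat.cast_nonneg _) (Nat.cast_nonneg _) key
    (T_le n N m hn S D _ (by linarith) hSD a6 hN0 a8 hcL) hε0.le hε1 hεA hLA h4' h5' rfl

end

end Pool.Agent.Q115.AG
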