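import Pool.Agent.Q115.AG.High
import Pool.Agent.H819R3.RC.RET
import Pool.Agent.H14R2.RC.S.FRV
import Pool.Agent.H14R2.LL.S.HCHAR
set_option autoImplicit false

/-!
The number of large eigenvalues of the random walk in a unitary representation of `A_n`.
-/

namespace Pool.Agent.Q115.AG

open RC14 Finset
open scoped InnerProductSpace

noncomputable section

/-! ### eigenvalues and traces -/

section
variable {V : Type*} [NormedAddCommGroup V] [InnerProductSpace ℂ V] [FiniteDimensional ℂ V]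

/-- a positive operator which is at least `θ` on a subspace `U` has
`tr T^L ≥ θ^L dim U` -/
theorem dim_le (T : Module.End ℂ V) (hT : T.IsSymmetric) (hpos : ∀ v, 0 ≤ (⟪T v, v⟫_ℂ).re)
    (U : Submodule ℂ V) (θ : ℝ) (hθ : 0 ≤ θ) (hU : ∀ v ∈ U, θ * ‖v‖ ^ 2 ≤ (⟪T v, v⟫_ℂ).re)
    (L : ℕ) : (Module.finrank ℂ U : ℝ) * θ ^ L ≤ rtr (T ^ L) := by
  classical
  set b := hT.eigenvectorBasis (rfl : Module.finrank ℂ V = Module.finrank ℂ V) with hb
  set μ := hT.eigenvalues (rfl : Module.finrank ℂ V = Module.finrank ℂ V) with hμ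
  have hTb : ∀ i, T (b i) = (μ i : ℂ) • b i := fun i => hT.apply_eigenvectorBasis rfl i
  have hμ0 : ∀ i, 0 ≤ μ i := by
    intro i
    have h := hpos (b i)
    rw [hTb, inner_smul_left, b.inner_eq_one i, mul_one, Complex.conj_ofReal,
      Complex.ofReal_re] at h
    exact h
  have hpw : ∀ i (l : ℕ), (T ^ l) (b i) = ((μ i : ℂ) ^ l) • b i := by
    intro i l
    induction l with
    | zero => simp
    | succ l ih =>
      rw [pow_succ', Module.End.mul_apply, ih, map_smul, hTb, smul_smul, ← pow_succ]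
  have htr : rtr (T ^ L) = ∑ i, μ i ^ L := by
    unfold rtr
    rw [LinearMap.trace_eq_sum_inner _ b, Complex.re_sum]
    refine Finset.sum_congr rfl fun i _ => ?_
    rw [hpw, inner_smul_right, b.inner_eq_one i, mul_one, ← Complex.ofReal_pow,
      Complex.ofReal_re]
  set e := stdOrthonormalBasis ℂ U with he
  have hen : ∀ j, ‖(e j : V)‖ = 1 := fun j => by
    rw [← Submodule.coe_norm, e.norm_eq_one j]
  have hw1 : ∀ j, ∑ i, ‖⟪b i, (e j : V)⟫_ℂ‖ ^ 2 = 1 := by
    intro j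
    rw [b.sum_sq_norm_inner_right, hen, one_pow]
  have hTe : ∀ v, (⟪T v, v⟫_ℂ).re = ∑ i, ‖⟪b i, v⟫_ℂ‖ ^ 2 * μ i := by
    intro v
    rw [← b.sum_inner_mul_inner (T v) v, Complex.re_sum]
    refine Finset.sum_congr rfl fun i _ => ?_
    rw [hT v (b i), hTb, inner_smul_right, mul_assoc, ← inner_conj_symm v (b i),
      Complex.conj_mul', Complex.re_ofReal_mul]
    norm_cast
    ring
  have key : ∀ j, θ ^ L ≤ ∑ i, ‖⟪b i, (e j : V)⟫_ℂ‖ ^ 2 * μ i ^ L := by
    intro j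
    have h1 := hU (e j) (e j).2
    rw [hen, one_pow, mul_one, hTe] at h1
    refine (pow_le_pow_left₀ hθ h1 L).trans ?_
    exact Real.pow_arith_mean_le_arith_mean_pow _ _ _ (fun i _ => by positivity) (hw1 j)
      (fun i _ => hμ0 i) L
  have hbes : ∀ i, ∑ j, ‖⟪b i, (e j : V)⟫_ℂ‖ ^ 2 ≤ 1 := by
    intro i
    have ho : Orthonormal ℂ (fun j => (e j : V)) :=
      e.orthonormal.comp_linearIsometry U.subtypeₗᵢ
    have h1 := ho.sum_inner_products_le (x := b i) (s := Finset.univ)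
    rw [b.norm_eq_one i, one_pow] at h1
    refine le_trans (le_of_eq ?_) h1
    refine Finset.sum_congr rfl fun j _ => ?_
    rw [norm_inner_symm]
  have hfr : (Module.finrank ℂ U : ℝ) * θ ^ L = ∑ _j : Fin (Module.finrank ℂ U), θ ^ L := by
    rw [Finset.sum_const, Finset.card_univ, Fintype.card_fin, nsmul_eq_mul]
  rw [hfr, htr]
  calc ∑ _j : Fin (Module.finrank ℂ U), θ ^ L
      ≤ ∑ j, ∑ i, ‖⟪b i, (e j : V)⟫_ℂ‖ ^ 2 * μ i ^ L := Finset.sum_le_sum fun j _ => key j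
    _ = ∑ i, (∑ j, ‖⟪b i, (e j : V)⟫_ℂ‖ ^ 2) * μ i ^ L := by
        rw [Finset.sum_comm]
        exact Finset.sum_congr rfl fun i _ => (Finset.sum_mul _ _ _).symm
    _ ≤ ∑ i, μ i ^ L := by
        refine Finset.sum_le_sum fun i _ => ?_
        have := mul_le_mul_of_nonneg_right (hbes i) (pow_nonneg (hμ0 i) L)
        linarith

end

/-! ### the trace on the high part -/

theorem high_trace {V : Type*} [NormedAddCommGroup V] [InnerProductSpace ℂ V]
    [FiniteDimensional ℂ V] (n N m k r : ℕ) (hN : 100 ≤ N) (hn : 1000 ≤ n)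
    (hNn : 2 * (12096 * N) ≤ n) (hk : 1 ≤ k) (hm : 6 * m ≤ n) (hmr : m ≤ r)
    (y : Fin k → Alt n) (c : ℝ) (hc0 : 0 ≤ c) (hy : Good1 n r c y)
    (ρ : Alt n →* (V ≃ₗᵢ[ℂ] V)) (hno : NoFix ρ N) (L : ℕ) :
    rtr (TL ρ y ^ L) ≤ (Real.exp (-(1 / (2 * 336 * 12096 * (N : ℝ) ^ 2) * n)) +
      ((3 / (n : ℝ)) ^ m + 3 ^ m * Real.exp (-(c * L / (4 * k))))) * Module.finrank ℂ V := by
  classical
  have hn0 : (0 : ℝ) < n := by
    have : (1000 : ℝ) ≤ n := by exact_mod_cast hn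
    linarith
  have hm36 : 36 * (n / (12096 * N)) ≤ n := by
    calc 36 * (n / (12096 * N)) ≤ (12096 * N) * (n / (12096 * N)) :=
          Nat.mul_le_mul_right _ (by omega)
      _ ≤ n := Nat.mul_div_le _ _
  have hchar : ∀ g : Alt n, nfix (g : Equiv.Perm (Fin n)) ≤ n / 2 →
      ‖chr ρ g‖ ≤ Real.exp (-(1 / (2 * 336 * 12096 * (N : ℝ) ^ 2) * n)) *
        Module.finrank ℂ V := fun g hg =>
    high_chr N hN hn g (by omega) _ hm36 _ (Real.exp_pos _).le (LL14.HCHARx.num N n hN hNn) _ V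
      ρ rfl hno
  have h1 := TRL n m k (n / 2) hk (by omega) y c hc0
    (FRV n m k (by omega) y c fun j hj hjm => hy j hj (hjm.trans hmr)) L ρ _
    (Real.exp_pos _).le hchar
  refine h1.trans (mul_le_mul_of_nonneg_right (add_le_add_right ?_ _) (Nat.cast_nonneg _))
  set E : ℝ := Real.exp (-(c * L / (4 * k))) with hE
  have hE0 : 0 < E := Real.exp_pos _
  have h2 : ((n : ℝ) / 3) ^ m ≤ ((n / 2).descFactorial m : ℝ) := by
    have e1 : ((n / 2 + 1 - m : ℕ) : ℝ) ^ m ≤ ((n / 2).descFactorial m : ℝ) := by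
      exact_mod_cast Nat.pow_sub_le_descFactorial (n / 2) m
    refine le_trans (pow_le_pow_left₀ (by positivity) ?_ m) e1
    have e2 : n ≤ 3 * (n / 2 + 1 - m) := by omega
    have e3 : (n : ℝ) ≤ 3 * ((n / 2 + 1 - m : ℕ) : ℝ) := by exact_mod_cast e2
    linarith
  have h3 : (Fintype.card (Tup m n) : ℝ) ≤ (n : ℝ) ^ m := by
    rw [Fintype.card_embedding_eq, Fintype.card_fin, Fintype.card_fin]
    exact_mod_cast Nat.descFactorial_le_pow n m
  have h4 : (0 : ℝ) < ((n : ℝ) / 3) ^ m := by positivity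
  calc (1 + (Fintype.card (Tup m n) : ℝ) * E) / ((n / 2).descFactorial m : ℝ)
      ≤ (1 + (n : ℝ) ^ m * E) / ((n : ℝ) / 3) ^ m := by
        apply div_le_div₀ (by positivity) _ h4 h2
        have := mul_le_mul_of_nonneg_right h3 hE0.le
        linarith
    _ = (3 / (n : ℝ)) ^ m + 3 ^ m * E := by
        rw [div_pow, div_pow]
        field_simp

/-! ### the energy splits -/

section
variable {G : Type*} [Group G] {V : Type*} [NormedAddCommGroup V] [InnerProductSpace ℂ V]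

lemma En_add (ρ : G →* (V ≃ₗᵢ[ℂ] V)) {k : ℕ} (x : Fin k → G) {W : Submodule ℂ V}
    (hW : Inv ρ W) {a b : V} (ha : a ∈ W) (hb : b ∈ Wᗮ) :
    En ρ x (a + b) = En ρ x a + En ρ x b := by
  unfold En
  rw [← Finset.sum_add_distrib]
  refine Finset.sum_congr rfl fun i _ => ?_
  have h1 : ρ (x i) (a + b) - (a + b) = (ρ (x i) a - a) + (ρ (x i) b - b) := by
    rw [map_add]; abel
  have h2 : ⟪ρ (x i) a - a, ρ (x i) b - b⟫_ℂ = 0 :=
    Submodule.inner_right_of_mem_orthogonal (Submodule.sub_mem _ (hW _ _ ha) ha)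
      (Submodule.sub_mem _ (inv_orth ρ hW _ _ hb) hb)
  rw [h1]
  have h3 := norm_add_sq_eq_norm_sq_add_norm_sq_of_inner_eq_zero _ _ h2
  rw [pow_two, pow_two, pow_two]
  exact h3

/-- energy and inner products -/
lemma En_inner (ρ : G →* (V ≃ₗᵢ[ℂ] V)) {k : ℕ} (x : Fin k → G) (v : V) :
    En ρ x v = 2 * k * ‖v‖ ^ 2 - 2 * ∑ i, (⟪ρ (x i) v, v⟫_ℂ).re := by
  unfold En
  have h : ∀ i, ‖ρ (x i) v - v‖ ^ 2 = 2 * ‖v‖ ^ 2 - 2 * (⟪ρ (x i) v, v⟫_ℂ).re := by
    intro i
    rw [@norm_sub_sq ℂ, (ρ (x i)).norm_map]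
    simp only [RCLike.re_eq_complex_re]
    ring
  rw [Finset.sum_congr rfl fun i _ => h i, Finset.sum_sub_distrib, Finset.sum_const,
    Finset.card_univ, Fintype.card_fin, nsmul_eq_mul, Finset.mul_sum]
  ring

end

/-- **core**: finite form -/
theorem core {V : Type*} [NormedAddCommGroup V] [InnerProductSpace ℂ V]
    [FiniteDimensional ℂ V] (n N m k r : ℕ) (hN : 100 ≤ N) (hn : 1000 ≤ n)
    (hNn : 2 * (12096 * N) ≤ n) (hNr : n < N * (r + 1)) (hk : 1 ≤ k) (hm : 6 * m ≤ n)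
    (hmr : m ≤ r) (x : Fin k → Alt n) (c : ℝ) (hc0 : 0 < c) (hx : Good1 n r c x)
    (ρ : Alt n →* (V ≃ₗᵢ[ℂ] V)) (hinv : ∀ v : V, (∀ g, ρ g v = v) → v = 0)
    (ε : ℝ) (hε : 0 < ε) (hε1 : ε ≤ 1) (hεc : 2 * k * ε < c) (U : Submodule ℂ V)
    (hU : ∀ v ∈ U, (1 - ε) * ‖v‖ ^ 2 ≤ (∑ i, (⟪ρ (x i) v, v⟫_ℂ).re) / k) (L : ℕ) :
    (Module.finrank ℂ U : ℝ) * (1 - ε / 2) ^ L ≤
      (Real.exp (-(1 / (2 * 336 * 12096 * (N : ℝ) ^ 2) * n)) +
      ((3 / (n : ℝ)) ^ m + 3 ^ m * Real.exp (-(c * L / (4 * k))))) * Module.finrank ℂ V := by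
  classical
  have hk0 : (0 : ℝ) < k := by exact_mod_cast hk
  set W := Low ρ r with hW
  have hWi : Inv ρ W := Low_inv ρ r
  have hHi : Inv ρ Wᗮ := inv_orth ρ hWi
  -- energy on U
  have hEn : ∀ v ∈ U, En ρ x v ≤ 2 * k * ε * ‖v‖ ^ 2 := by
    intro v hv
    have h1 := hU v hv
    rw [le_div_iff₀ hk0] at h1
    rw [En_inner]
    nlinarith
  have hsplit : ∀ v : V, (W.starProjection v) + (Wᗮ.starProjection v) = v := fun v => by
    simp
  have hlow : ∀ v ∈ U, En ρ x (Wᗮ.starProjection v) ≤ 2 * k * ε * ‖Wᗮ.starProjection v‖ ^ 2 ∧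
      (Wᗮ.starProjection v = 0 → v = 0) := by
    intro v hv
    have ha : W.starProjection v ∈ W := Submodule.starProjection_apply_mem W v
    have hb : Wᗮ.starProjection v ∈ Wᗮ := Submodule.starProjection_apply_mem Wᗮ v
    have h1 := hEn v hv
    have h2 := En_add ρ x hWi ha hb
    rw [hsplit v] at h2
    have h3 : ‖v‖ ^ 2 = ‖W.starProjection v‖ ^ 2 + ‖Wᗮ.starProjection v‖ ^ 2 := by
      have h4 := norm_add_sq_eq_norm_sq_add_norm_sq_of_inner_eq_zero (𝕜 := ℂ)
        (W.starProjection v) (Wᗮ.starProjection v)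
        (Submodule.inner_right_of_mem_orthogonal ha hb)
      rw [hsplit v] at h4
      rw [pow_two, pow_two, pow_two]
      exact h4
    have h5 := low_gap ρ hinv hx ha
    have h6 : 0 ≤ ‖W.starProjection v‖ ^ 2 := by positivity
    have h7 : 0 ≤ En ρ x (Wᗮ.starProjection v) := by
      unfold En
      positivity
    refine ⟨?_, fun h0 => ?_⟩
    · rw [h2, h3] at h1
      nlinarith
    · rw [h0] at h3 h2
      have h8 : ‖v‖ ^ 2 = ‖W.starProjection v‖ ^ 2 := by
        rw [h3, norm_zero]; ring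
      have h9 : c * ‖v‖ ^ 2 ≤ 2 * k * ε * ‖v‖ ^ 2 := by
        rw [h2] at h1
        rw [h8] at h1 ⊢
        have h10 : 0 ≤ En ρ x (0 : V) := by
          unfold En
          positivity
        linarith
      have h11 : ‖v‖ ^ 2 = 0 := by
        have h12 : 0 ≤ ‖v‖ ^ 2 := by positivity
        nlinarith
      have h13 : ‖v‖ = 0 := by
        exact pow_eq_zero_iff (two_ne_zero) |>.1 h11
      exact norm_eq_zero.1 h13
  -- the projection to the high part
  set Q : V →ₗ[ℂ] (Wᗮ : Submodule ℂ V) := (Wᗮ.orthogonalProjectionOnto).toLinearMap with hQ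
  have hQa : ∀ v, ((Q v : (Wᗮ : Submodule ℂ V)) : V) = Wᗮ.starProjection v := fun v => rfl
  set U' : Submodule ℂ (Wᗮ : Submodule ℂ V) := U.map Q with hU'
  have hfr : Module.finrank ℂ U' = Module.finrank ℂ U := by
    have hinj : Function.Injective (Q.domRestrict U) := by
      rw [injective_iff_map_eq_zero]
      intro u hu
      have h1 : Q (u : V) = 0 := hu
      have h2 : Wᗮ.starProjection (u : V) = 0 := by
        rw [← hQa, h1]; rfl
      exact Subtype.ext ((hlow u u.2).2 h2)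
    have h2 := LinearMap.finrank_range_of_inj hinj
    rw [LinearMap.range_domRestrict] at h2
    exact h2
  have hnf : NoFix (res ρ Wᗮ hHi) N := by
    intro K hK v hv
    have hKr : K.card ≤ r := by
      by_contra hc
      push Not at hc
      have h1 : N * (r + 1) ≤ N * K.card := Nat.mul_le_mul_left _ hc
      omega
    have h1 : (v : V) ∈ W := by
      refine Submodule.subset_span ⟨K, hKr, fun g hg => ?_⟩
      have h2 := hv g hg
      rw [← res_apply ρ Wᗮ hHi g v, h2]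
    have h2 : ⟪(v : V), (v : V)⟫_ℂ = 0 := Submodule.inner_right_of_mem_orthogonal h1 v.2
    exact Subtype.ext (inner_self_eq_zero.1 h2)
  have hres : ∀ v : (Wᗮ : Submodule ℂ V), En (res ρ Wᗮ hHi) x v = En ρ x (v : V) := fun v => rfl
  have hθ : 0 ≤ 1 - ε / 2 := by linarith
  have h1 := dim_le (TL (res ρ Wᗮ hHi) x) (TL_symm _ x) (fun v => by
      have e1 := TL_energy (res ρ Wᗮ hHi) hk x v
      have e2 := RET.En_le (res ρ Wᗮ hHi) x v
      have e3 : En (res ρ Wᗮ hHi) x v / (4 * k) ≤ ‖v‖ ^ 2 := by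
        rw [div_le_iff₀ (by positivity)]
        linarith
      linarith) U' (1 - ε / 2) hθ (fun v hv => by
      obtain ⟨u, hu, rfl⟩ := hv
      have e1 := TL_energy (res ρ Wᗮ hHi) hk x (Q u)
      have e2 := (hlow u hu).1
      rw [← hQa, ← hres] at e2
      have e3 : ‖((Q u : (Wᗮ : Submodule ℂ V)) : V)‖ = ‖Q u‖ := rfl
      rw [e3] at e2
      have e4 : En (res ρ Wᗮ hHi) x (Q u) / (4 * k) ≤ ε / 2 * ‖Q u‖ ^ 2 := by
        rw [div_le_iff₀ (by positivity)]
        linarith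
      linarith) L
  rw [hfr] at h1
  refine h1.trans ?_
  refine (high_trace n N m k r hN hn hNn hk hm hmr x c hc0.le hx (res ρ Wᗮ hHi) hnf L).trans ?_
  refine mul_le_mul_of_nonneg_left ?_ (by positivity)
  exact_mod_cast Submodule.finrank_le _

end

end Pool.Agent.Q115.AG
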